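import Mathlib
import Pool.Agent.R443.QDel3

/-!
MP_c68aab_nt, Q1: the congruences for sums of products of q-Delannoy numbers modulo the square
of the bracket of an odd prime hold, in all three cases.
-/

namespace Pool.Agent.Results.MP_c68aab_nt.QDelannoy

open Finset LaurentPolynomial Pool.Agent.R443.QDel

lemma caseC {p m : ℕ} (hp : p.Prime) (u : ℂˣ) (hu : IsPrimitiveRoot (u : ℂ) p)
    (h1u : 1 + (u : ℂ) ≠ 0) (h1 : ¬ p ∣ m) (h2 : ¬ p ∣ m + 1) : br p ^ 2 ∣ S p m := by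
  have h := S_tel p m
  apply br_sq_dvd hp u hu (2 * (1 + T 1) * (1 - (T 1) ^ m) * (1 - (T 1) ^ (m + 1)) * (T 1) ^ p)
  · simp only [map_mul, map_add, map_sub, map_one, map_pow, ev_T1, map_ofNat]
    have e1 : 1 - (u : ℂ) ^ m ≠ 0 := by
      intro hh
      exact h1 ((hu.pow_eq_one_iff_dvd m).mp (sub_eq_zero.mp hh).symm)
    have e2 : 1 - (u : ℂ) ^ (m + 1) ≠ 0 := by
      intro hh
      exact h2 ((hu.pow_eq_one_iff_dvd (m + 1)).mp (sub_eq_zero.mp hh).symm)
    have e3 : (u : ℂ) ^ p ≠ 0 := pow_ne_zero p u.ne_zero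
    exact mul_ne_zero (mul_ne_zero (mul_ne_zero (mul_ne_zero (by norm_num) h1u) e1) e2) e3
  · rw [h]
    exact ⟨T 1 * (1 - T 1) * B (T 1) ((T 1) ^ m) (D (T 1) m p) (D (T 1) m (p - 1))
      (D (T (-1)) m p) (D (T (-1)) m (p - 1)), by ring⟩

lemma caseA {p a m : ℕ} (hp : p.Prime) (hodd : Odd p) (u : ℂˣ) (hu : IsPrimitiveRoot (u : ℂ) p)
    (h1u : 1 + (u : ℂ) ≠ 0) (ha : 1 ≤ a) (hm : m = a * p) :
    ∃ R : ℤ[T;T⁻¹], (1 - T 2) * R = T 1 * (1 - T (-(2 * (m : ℤ)))) ∧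
      br p ^ 2 ∣ S p m - R := by
  obtain ⟨n, rfl⟩ : ∃ n, p = n + 1 := ⟨p - 1, by have := hp.pos; omega⟩
  set q : ℤ[T;T⁻¹] := T 1 with hq
  set q' : ℤ[T;T⁻¹] := T (-1) with hq'
  have hqq : q * q' = 1 := TT
  have hyy : q ^ m * q' ^ m = 1 := by rw [← mul_pow, hqq, one_pow]
  have eT2 : (T 2 : ℤ[T;T⁻¹]) = q ^ 2 := by rw [hq, T_pow]; norm_num
  have eTm : (T (-(2 * (m : ℤ))) : ℤ[T;T⁻¹]) = (q' ^ m) ^ 2 := by
    rw [hq', T_pow, T_pow]
    congr 1
    push_cast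
    ring
  have hg := geom_mul (q ^ 2) m
  have hA0 := geom_mul (q ^ (n + 1)) a
  set Gm := ∑ i ∈ range m, (q ^ 2) ^ i with hGm
  set A := ∑ i ∈ range a, (q ^ (n + 1)) ^ i with hAd
  have hA : (1 - q) * br (n + 1) * A = 1 - q ^ m := by
    rw [br_mul, ← hq, hA0, ← pow_mul]
    congr 2
    rw [hm]
    ring
  have hR : (1 - q ^ 2) * (-(q * (q' ^ m) ^ 2 * Gm)) = q * (1 - (q' ^ m) ^ 2) := by
    have e : (q ^ 2) ^ m = (q ^ m) ^ 2 := by ring
    rw [e] at hg
    linear_combination (-q * (q' ^ m) ^ 2) * hg + (q * (q ^ m * q' ^ m + 1)) * hyy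
  refine ⟨-(q * (q' ^ m) ^ 2 * Gm), ?_, ?_⟩
  · rw [eT2, eTm]
    exact hR
  · set R := -(q * (q' ^ m) ^ 2 * Gm) with hRd
    have hS := S_tel (n + 1) m
    simp only [Nat.add_sub_cancel] at hS
    rw [← hq, ← hq'] at hS
    set U : ℤ[T;T⁻¹] := 2 * (1 + q) * A * (1 - q ^ (m + 1)) * q ^ (n + 1) with hU
    have hbr := br_ne (n + 1) (by omega)
    have h1q := one_sub_ne
    rw [← hq] at h1q
    set b := br (n + 1) with hb
    set Bp := B q (q ^ m) (D q m (n + 1)) (D q m n) (D q' m (n + 1)) (D q' m n) with hBp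
    have hUS : U * S (n + 1) m = q * b * Bp := by
      apply mul_left_cancel₀ (mul_ne_zero h1q hbr)
      rw [hU]
      linear_combination hS + (2 * (1 + q) * (1 - q ^ (m + 1)) * q ^ (n + 1) * S (n + 1) m) * hA
    have hUR : U * R = - (q * b * (2 * A ^ 2 * (1 - q ^ (m + 1)) * q ^ (n + 1) * (q' ^ m) ^ 2
        * (1 + q ^ m))) := by
      apply mul_left_cancel₀ h1q
      rw [hU]
      linear_combination (2 * A * (1 - q ^ (m + 1)) * q ^ (n + 1)) * hR
        + (2 * A * (1 - q ^ (m + 1)) * q ^ (n + 1) * q * (q' ^ m) ^ 2 * (1 + q ^ m)) * hA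
        - (2 * A * (1 - q ^ (m + 1)) * q ^ (n + 1) * q * (q ^ m * q' ^ m + 1)) * hyy
    apply br_sq_dvd hp u hu U
    · rw [hU]
      simp only [map_mul, map_add, map_sub, map_one, map_pow, map_ofNat, hAd, map_sum, hq, ev_T1,
        hu.pow_eq_one, one_pow, sum_const, card_range, nsmul_eq_mul, mul_one]
      have e1 : (u : ℂ) ^ (m + 1) = u := by
        rw [pow_succ, hm, mul_comm a, pow_mul, hu.pow_eq_one, one_pow, one_mul]
      rw [e1]
      have e2 : 1 - (u : ℂ) ≠ 0 := by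
        intro hh
        have : (u : ℂ) = 1 := (sub_eq_zero.mp hh).symm
        exact hu.ne_one hp.one_lt this
      have e3 : (a : ℂ) ≠ 0 := by
        have : a ≠ 0 := by omega
        exact_mod_cast this
      exact mul_ne_zero (mul_ne_zero (mul_ne_zero (by norm_num) h1u) e3) e2
    · have hV : b ∣ Bp + 2 * A ^ 2 * (1 - q ^ (m + 1)) * q ^ (n + 1) * (q' ^ m) ^ 2
          * (1 + q ^ m) := by
        rw [hb]
        apply br_dvd hp u hu
        have hui : IsPrimitiveRoot ((u⁻¹ : ℂˣ) : ℂ) (n + 1) := by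
          rw [Units.val_inv_eq_inv_val]
          exact hu.inv
        have e1 : (u : ℂ) ^ m = 1 := by
          rw [hm, mul_comm a, pow_mul, hu.pow_eq_one, one_pow]
        have e1' : (u : ℂ) ^ (m + 1) = u := by rw [pow_succ, e1, one_mul]
        have e2 : (((u⁻¹ : ℂˣ) : ℂ)) ^ m = 1 := by
          rw [hm, mul_comm a, pow_mul, hui.pow_eq_one, one_pow]
        have d1 := D_val1 hu hodd a
        have d2 := D_val1 hui hodd a
        have d3 := D_val3 hu hodd a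
        have d4 := D_val3 hui hodd a
        rw [← hm] at d1 d2 d3 d4
        rw [hBp, B]
        simp only [map_mul, map_add, map_sub, map_one, map_pow, map_ofNat, hAd, map_sum, hq, hq',
          ev_T1, ev_Tm1, D_map, hu.pow_eq_one, one_pow, sum_const, card_range, nsmul_eq_mul,
          mul_one, d1, d2, d3, d4, e1, e1', e2]
        ring
      obtain ⟨c, hc⟩ := hV
      refine ⟨q * c, ?_⟩
      rw [mul_sub, hUS, hUR]
      linear_combination (q * b) * hc

lemma caseB {p a m : ℕ} (hp : p.Prime) (hodd : Odd p) (u : ℂˣ) (hu : IsPrimitiveRoot (u : ℂ) p)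
    (h1u : 1 + (u : ℂ) ≠ 0) (hma : m + 1 = (a + 1) * p) :
    ∃ R : ℤ[T;T⁻¹], (1 - T 2) * R = T 1 * (1 - T (2 * (m : ℤ) + 2)) ∧
      br p ^ 2 ∣ S p m - R := by
  obtain ⟨n, rfl⟩ : ∃ n, p = n + 1 := ⟨p - 1, by have := hp.pos; omega⟩
  have hm : m = a * (n + 1) + n := by
    have : (a + 1) * (n + 1) = a * (n + 1) + n + 1 := by ring
    omega
  set q : ℤ[T;T⁻¹] := T 1 with hq
  set q' : ℤ[T;T⁻¹] := T (-1) with hq'
  have eT2 : (T 2 : ℤ[T;T⁻¹]) = q ^ 2 := by rw [hq, T_pow]; norm_num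
  have eTm : (T (2 * (m : ℤ) + 2) : ℤ[T;T⁻¹]) = (q ^ (m + 1)) ^ 2 := by
    rw [hq, T_pow, T_pow]
    congr 1
    push_cast
    ring
  have hg := geom_mul (q ^ 2) (m + 1)
  have hA0 := geom_mul (q ^ (n + 1)) (a + 1)
  set Gm := ∑ i ∈ range (m + 1), (q ^ 2) ^ i with hGm
  set A := ∑ i ∈ range (a + 1), (q ^ (n + 1)) ^ i with hAd
  have hA : (1 - q) * br (n + 1) * A = 1 - q ^ (m + 1) := by
    rw [br_mul, ← hq, hA0, ← pow_mul]
    congr 2
    rw [hma]
    ring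
  have hR : (1 - q ^ 2) * (q * Gm) = q * (1 - (q ^ (m + 1)) ^ 2) := by
    have e : (q ^ 2) ^ (m + 1) = (q ^ (m + 1)) ^ 2 := by ring
    rw [e] at hg
    linear_combination q * hg
  refine ⟨q * Gm, ?_, ?_⟩
  · rw [eT2, eTm]
    exact hR
  · set R := q * Gm with hRd
    have hS := S_tel (n + 1) m
    simp only [Nat.add_sub_cancel] at hS
    rw [← hq, ← hq'] at hS
    set U : ℤ[T;T⁻¹] := 2 * (1 + q) * (1 - q ^ m) * A * q ^ (n + 1) with hU
    have hbr := br_ne (n + 1) (by omega)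
    have h1q := one_sub_ne
    rw [← hq] at h1q
    set b := br (n + 1) with hb
    set Bp := B q (q ^ m) (D q m (n + 1)) (D q m n) (D q' m (n + 1)) (D q' m n) with hBp
    have hUS : U * S (n + 1) m = q * b * Bp := by
      apply mul_left_cancel₀ (mul_ne_zero h1q hbr)
      rw [hU]
      linear_combination hS + (2 * (1 + q) * (1 - q ^ m) * q ^ (n + 1) * S (n + 1) m) * hA
    have hUR : U * R = q * b * (2 * (1 - q ^ m) * A ^ 2 * q ^ (n + 1) * (1 + q ^ (m + 1))) := by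
      apply mul_left_cancel₀ h1q
      rw [hU]
      linear_combination (2 * A * (1 - q ^ m) * q ^ (n + 1)) * hR
        - (2 * A * (1 - q ^ m) * q ^ (n + 1) * q * (1 + q ^ (m + 1))) * hA
    apply br_sq_dvd hp u hu U
    · rw [hU]
      simp only [map_mul, map_add, map_sub, map_one, map_pow, map_ofNat, hAd, map_sum, hq, ev_T1,
        hu.pow_eq_one, one_pow, sum_const, card_range, nsmul_eq_mul, mul_one]
      have e2 : 1 - (u : ℂ) ^ m ≠ 0 := by
        intro hh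
        have h3 := (hu.pow_eq_one_iff_dvd m).mp (sub_eq_zero.mp hh).symm
        have h4 : n + 1 ∣ m + 1 := ⟨a + 1, by rw [hma]; ring⟩
        have h5 : n + 1 ∣ 1 := (Nat.dvd_add_right h3).mp h4
        exact hp.one_lt.ne' (Nat.dvd_one.mp h5)
      have e3 : ((a + 1 : ℕ) : ℂ) ≠ 0 := by
        have : a + 1 ≠ 0 := by omega
        exact_mod_cast this
      exact mul_ne_zero (mul_ne_zero (mul_ne_zero (by norm_num) h1u) e2) e3
    · have hV : b ∣ Bp - 2 * (1 - q ^ m) * A ^ 2 * q ^ (n + 1) * (1 + q ^ (m + 1)) := by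
        rw [hb]
        apply br_dvd hp u hu
        have hui : IsPrimitiveRoot ((u⁻¹ : ℂˣ) : ℂ) (n + 1) := by
          rw [Units.val_inv_eq_inv_val]
          exact hu.inv
        have e0 : (u : ℂ) ^ (m + 1) = 1 := by
          rw [hma, mul_comm (a + 1), pow_mul, hu.pow_eq_one, one_pow]
        have d1 := D_val2 hu hodd a
        have d2 := D_val2 hui hodd a
        have d3 := D_val4 hu hodd a
        have d4 := D_val4 hui hodd a
        simp only [Nat.add_sub_cancel] at d1 d2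
        rw [← hm] at d1 d2 d3 d4
        rw [hBp, B]
        have huu : (u : ℂ) * ((u⁻¹ : ℂˣ) : ℂ) = 1 := by
          rw [← Units.val_mul, mul_inv_cancel, Units.val_one]
        have e1 : (u : ℂ) ^ m = ((u⁻¹ : ℂˣ) : ℂ) := by
          have : (u : ℂ) * (u : ℂ) ^ m = (u : ℂ) * ((u⁻¹ : ℂˣ) : ℂ) := by
            rw [huu, ← pow_succ', e0]
          exact mul_left_cancel₀ u.ne_zero this
        simp only [map_mul, map_add, map_sub, map_one, map_pow, map_ofNat, hAd, map_sum, hq, hq',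
          ev_T1, ev_Tm1, D_map, hu.pow_eq_one, one_pow, sum_const, card_range, nsmul_eq_mul,
          mul_one, d1, d2, d3, d4, e1, e0]
        generalize ((u⁻¹ : ℂˣ) : ℂ) = w at *
        generalize (u : ℂ) = z at *
        push_cast
        linear_combination ((1 + 2 * (a : ℂ)) - 2 * w * (1 + 2 * (a : ℂ)) + 2 * (1 + 2 * (a : ℂ))
          - w * (1 + 2 * (a : ℂ)) - (1 + 2 * (a : ℂ)) * (z * w + 1) - w + (1 + 2 * (a : ℂ)) ^ 2
          + z * w + 1) * huu
      obtain ⟨c, hc⟩ := hV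
      refine ⟨q * c, ?_⟩
      rw [mul_sub, hUS, hUR]
      linear_combination (q * b) * hc

/-- Main theorem. -/
theorem result (p : ℕ) (hp : p.Prime) (hp2 : p ≠ 2) (m : ℕ) (hm : 1 ≤ m) :
    (p ∣ m → ∃ R : ℤ[T;T⁻¹], (1 - T 2) * R = T 1 * (1 - T (-(2 * (m : ℤ)))) ∧
      br p ^ 2 ∣ S p m - R) ∧
    (p ∣ m + 1 → ∃ R : ℤ[T;T⁻¹], (1 - T 2) * R = T 1 * (1 - T (2 * (m : ℤ) + 2)) ∧
      br p ^ 2 ∣ S p m - R) ∧
    (¬ p ∣ m → ¬ p ∣ m + 1 → br p ^ 2 ∣ S p m) := by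
  have hodd : Odd p := hp.odd_of_ne_two hp2
  have hprim := Complex.isPrimitiveRoot_exp p hp.ne_zero
  obtain ⟨u, hu0⟩ : ∃ u : ℂˣ, (u : ℂ) = Complex.exp (2 * Real.pi * Complex.I / p) :=
    ⟨Units.mk0 _ (Complex.exp_ne_zero _), rfl⟩
  have hu : IsPrimitiveRoot (u : ℂ) p := by rw [hu0]; exact hprim
  have h1u : 1 + (u : ℂ) ≠ 0 := by
    intro h
    have h2 : (u : ℂ) = -1 := by linear_combination h
    have h3 : (u : ℂ) ^ 2 = 1 := by rw [h2]; ring
    have h4 := (hu.pow_eq_one_iff_dvd 2).mp h3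
    exact hp2 ((Nat.prime_dvd_prime_iff_eq hp Nat.prime_two).mp h4)
  refine ⟨?_, ?_, fun h1 h2 => caseC hp u hu h1u h1 h2⟩
  · rintro ⟨a, ha⟩
    have ha1 : 1 ≤ a := by
      rcases Nat.eq_zero_or_pos a with h | h
      · rw [h, mul_zero] at ha
        omega
      · exact h
    rw [mul_comm] at ha
    exact caseA hp hodd u hu h1u ha1 ha
  · rintro ⟨a, ha⟩
    have ha1 : 1 ≤ a := by
      rcases Nat.eq_zero_or_pos a with h | h
      · rw [h, mul_zero] at ha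
        omega
      · exact h
    obtain ⟨k, rfl⟩ : ∃ k, a = k + 1 := ⟨a - 1, by omega⟩
    rw [mul_comm] at ha
    exact caseB hp hodd u hu h1u ha

end Pool.Agent.Results.MP_c68aab_nt.QDelannoy
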